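import Pool.Agent.H27.L1.H34.GA.Targets1
import Pool.Agent.H27.L1.H88.GU.ADC

/-!
Row ADB of the board gaa_modules: the operators are adjoint, for a form and its Fourier transform,
with an arbitrary component at infinity.
-/

set_option autoImplicit false

namespace Pool.Agent.H27.L1.H80.GA

open MeasureTheory Pool.Agent.H27.L1.H34.GM Pool.Agent.H27.L1.H34.GZ Pool.Agent.H27.L1.H34.GU Pool.Agent.H27.L1.H34.GA
open Pool.Agent.H27.L1.H88.GU (gen kk_shift mul_inj GG SS psn_norm ww ww_le ff)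

/-- the data -/
structure Hy (m N : ℕ) [NeZero N] (D : Set (V m)) (F : Mat m → VN m N → ℂ) (Ψ : Mat m → ℂ) :
    Prop where
  meas : MeasurableSet D
  det : ∀ z ∈ D, (mt z).det ≠ 0
  cont : ∀ x, ContinuousOn (fun g => F g x) {g | g.det ≠ 0}
  psi : Continuous Ψ
  msr : T_MSR

section

variable {m N : ℕ} [NeZero N] {D : Set (V m)} {F : Mat m → VN m N → ℂ} {Ψ : Mat m → ℂ}

theorem Hy.aesm (h : Hy m N D F Ψ) (x : VN m N) :
    AEStronglyMeasurable (fun z : V m => F (mt z) x) ((hm m).restrict D) := by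
  have h1 : Continuous (fun z : V m => mt z) := continuous_id
  have h2 : ContinuousOn (fun z : V m => F (mt z) x) D :=
    (h.cont x).comp h1.continuousOn fun z hz => h.det z hz
  exact h2.aestronglyMeasurable h.meas

theorem Hy.aemG (h : Hy m N D F Ψ) : AEMeasurable (GG F) ((hm m).restrict D) :=
  Finset.aemeasurable_fun_sum _ fun x _ => (h.aesm x).enorm

theorem Hy.aemT (h : Hy m N D F Ψ) (hGSU : T_GSU) :
    AEMeasurable (fun z : V m => Tht (mt z) * GG F z) ((hm m).restrict D) :=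
  (Pool.Agent.H27.L1.H90.GZ.measurable_tht hGSU m).aemeasurable.mul h.aemG

theorem Hy.finT (h : Hy m N D F Ψ) (hGSU : T_GSU)
    (hfin : ∑ x, ∫⁻ z in D, Tht (mt z) * ENNReal.ofReal ‖F (mt z) x‖ ∂(hm m) < ⊤) :
    ∫⁻ z in D, Tht (mt z) * GG F z ∂(hm m) < ⊤ := by
  have h1 : ∫⁻ z in D, Tht (mt z) * GG F z ∂(hm m) =
      ∑ x, ∫⁻ z in D, Tht (mt z) * ENNReal.ofReal ‖F (mt z) x‖ ∂(hm m) := by
    rw [← lintegral_finsetSum' _ fun x _ => ?_]
    · refine lintegral_congr fun z => ?_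
      unfold GG
      rw [Finset.mul_sum]
      refine Finset.sum_congr rfl fun x _ => ?_
      rw [ofReal_norm]
    · exact (Pool.Agent.H27.L1.H90.GZ.measurable_tht hGSU m).aemeasurable.mul
        (h.aesm x).norm.aemeasurable.ennreal_ofReal
  rw [h1]
  exact hfin

theorem Hy.meas_psi (h : Hy m N D F Ψ) (ρ : ℝ) (φ η : ZM m) :
    Measurable (fun p : V m × V m => Ψ (kk ρ (mt p.1) (cR φ) (cR η * mt p.2))) := by
  obtain ⟨-, -, -, -, -, -, hkkm, hΦm⟩ := h.msr.1 m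
  simp only [kk_shift]
  exact (hΦm Ψ h.psi).comp (hkkm (ρ * aN (cR η)) (cR φ * cR η))

theorem Hy.meas_SS (h : Hy m N D F Ψ) (ρ : ℝ) (η : ZM m) : Measurable (SS Ψ ρ η) :=
  Measurable.tsum fun φ => (h.meas_psi ρ φ η).enorm

theorem Hy.aemP (h : Hy m N D F Ψ) (ρ : ℝ) (η : ZM m) :
    AEMeasurable (fun p : V m × V m => SS Ψ ρ η p * (GG F p.1 * GG F p.2))
      (((hm m).restrict D).prod ((hm m).restrict D)) := by
  obtain ⟨-, -, -, -, hsig, -, -, -⟩ := h.msr.1 m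
  have := hsig
  exact (h.meas_SS ρ η).aemeasurable.mul (h.aemG.comp_fst.mul h.aemG.comp_snd)

/-- decaying functions: the majorant is integrable -/
theorem Hy.fin_dcy (h : Hy m N D F Ψ) (hGSU : T_GSU)
    (hfin : ∑ x, ∫⁻ z in D, Tht (mt z) * ENNReal.ofReal ‖F (mt z) x‖ ∂(hm m) < ⊤)
    (ρ : ℝ) (η : ZM m) (C : ENNReal) (hC : C ≠ ⊤)
    (hle : ∀ p : V m × V m, p.1 ∈ D → p.2 ∈ D →
      SS Ψ ρ η p ≤ C * Tht (mt p.1) * Tht (mt p.2)) :
    ∫⁻ p : V m × V m, SS Ψ ρ η p * (GG F p.1 * GG F p.2)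
      ∂(((hm m).restrict D).prod ((hm m).restrict D)) ≠ ⊤ := by
  obtain ⟨-, -, -, -, hsig, -, -, -⟩ := h.msr.1 m
  have := hsig
  rw [lintegral_prod _ (h.aemP ρ η)]
  have h2 : ∫⁻ w in D, ∫⁻ z in D, SS Ψ ρ η (w, z) * (GG F w * GG F z) ∂(hm m) ∂(hm m) ≤
      ∫⁻ w in D, (C * ∫⁻ z in D, Tht (mt z) * GG F z ∂(hm m)) *
        (Tht (mt w) * GG F w) ∂(hm m) := by
    refine setLIntegral_mono' h.meas fun w hw => ?_
    have h3 : ∫⁻ z in D, SS Ψ ρ η (w, z) * (GG F w * GG F z) ∂(hm m) ≤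
        ∫⁻ z in D, (C * (Tht (mt w) * GG F w)) * (Tht (mt z) * GG F z)
          ∂(hm m) := by
      refine setLIntegral_mono' h.meas fun z hz => ?_
      calc SS Ψ ρ η (w, z) * (GG F w * GG F z)
          ≤ (C * Tht (mt w) * Tht (mt z)) * (GG F w * GG F z) :=
            mul_le_mul' (hle (w, z) hw hz) le_rfl
        _ = (C * (Tht (mt w) * GG F w)) * (Tht (mt z) * GG F z) := by ring
    refine h3.trans (le_of_eq ?_)
    rw [lintegral_const_mul'' _ (h.aemT hGSU)]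
    ring
  refine ne_top_of_le_ne_top ?_ h2
  rw [lintegral_const_mul'' _ (h.aemT hGSU)]
  exact ENNReal.mul_ne_top (ENNReal.mul_ne_top hC (h.finT hGSU hfin).ne) (h.finT hGSU hfin).ne

/-- functions vanishing on the singular matrices: the majorant is integrable -/
theorem Hy.fin_sing (h : Hy m N D F Ψ) (hD : hm m D ≠ ⊤) (B : ENNReal) (hB : B ≠ ⊤)
    (hFB : ∀ z ∈ D, GG F z ≤ B) (ρ : ℝ) (η : ZM m) (C : ENNReal) (hC : C ≠ ⊤)
    (hle : ∀ z ∈ D, ∫⁻ w in D, SS Ψ ρ η (w, z) ∂(hm m) ≤ C) :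
    ∫⁻ p : V m × V m, SS Ψ ρ η p * (GG F p.1 * GG F p.2)
      ∂(((hm m).restrict D).prod ((hm m).restrict D)) ≠ ⊤ := by
  obtain ⟨-, -, -, -, hsig, -, -, -⟩ := h.msr.1 m
  have := hsig
  rw [lintegral_prod_symm _ (h.aemP ρ η)]
  have hBB : B * B ≠ ⊤ := ENNReal.mul_ne_top hB hB
  have h2 : ∫⁻ z in D, ∫⁻ w in D, SS Ψ ρ η (w, z) * (GG F w * GG F z) ∂(hm m) ∂(hm m) ≤
      ∫⁻ _ in D, C * (B * B) ∂(hm m) := by
    refine setLIntegral_mono' h.meas fun z hz => ?_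
    calc ∫⁻ w in D, SS Ψ ρ η (w, z) * (GG F w * GG F z) ∂(hm m)
        ≤ ∫⁻ w in D, SS Ψ ρ η (w, z) * (B * B) ∂(hm m) :=
          setLIntegral_mono' h.meas fun w hw =>
            mul_le_mul' le_rfl (mul_le_mul' (hFB w hw) (hFB z hz))
      _ = (∫⁻ w in D, SS Ψ ρ η (w, z) ∂(hm m)) * (B * B) := lintegral_mul_const' _ _ hBB
      _ ≤ C * (B * B) := mul_le_mul' (hle z hz) le_rfl
  refine ne_top_of_le_ne_top ?_ h2
  rw [setLIntegral_const]
  exact ENNReal.mul_ne_top (ENNReal.mul_ne_top hC hBB) hD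

theorem Hy.aesw (h : Hy m N D F Ψ) (v : VN m N) :
    AEStronglyMeasurable (ww F v) ((hm m).restrict D) :=
  Finset.aestronglyMeasurable_fun_sum _ fun x _ => (h.aesm x).const_mul _

/-- one term of the sum over the vectors -/
theorem Hy.int1 (h : Hy m N D F Ψ) (ρ : ℝ) (η : ZM m) (v x : VN m N)
    (hf1 : ∫⁻ p : V m × V m, SS Ψ ρ η p * (GG F p.1 * GG F p.2)
      ∂(((hm m).restrict D).prod ((hm m).restrict D)) ≠ ⊤) :
    Integrable (fun p : V m × V m => ww F v p.2 *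
      ∑' φ : ZM m, (starRingEnd ℂ) (Ψ (kk ρ (mt p.1) (cR φ) (cR η * mt p.2))) *
        (starRingEnd ℂ) (F (mt p.1) (ac N φ x)))
      (((hm m).restrict D).prod ((hm m).restrict D)) := by
  obtain ⟨-, -, -, -, hsig, -, -, -⟩ := h.msr.1 m
  have := hsig
  have hm1 := h.aemP ρ η
  have e1 : ∀ p : V m × V m, ∑' φ : ZM m, ‖Ψ (kk ρ (mt p.1) (cR φ) (cR η * mt p.2))‖ₑ *
      (GG F p.1 * GG F p.2) = SS Ψ ρ η p * (GG F p.1 * GG F p.2) := by
    intro p
    rw [ENNReal.tsum_mul_right]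
    rfl
  have h1 := gen (((hm m).restrict D).prod ((hm m).restrict D))
    (fun (φ : ZM m) (p : V m × V m) => ww F v p.2 *
      ((starRingEnd ℂ) (Ψ (kk ρ (mt p.1) (cR φ) (cR η * mt p.2))) *
        (starRingEnd ℂ) (F (mt p.1) (ac N φ x))))
    (fun φ p => ‖Ψ (kk ρ (mt p.1) (cR φ) (cR η * mt p.2))‖ₑ * (GG F p.1 * GG F p.2))
    ?_ ?_ ?_ ?_
  · refine h1.congr (Filter.Eventually.of_forall fun p => ?_)
    exact tsum_mul_left
  · intro φ
    refine AEStronglyMeasurable.mul (h.aesw v).comp_snd (AEStronglyMeasurable.mul ?_ ?_)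
    · exact Complex.continuous_conj.comp_aestronglyMeasurable
        (h.meas_psi ρ φ η).aestronglyMeasurable
    · have h2 : AEStronglyMeasurable (fun p : V m × V m => F (mt p.1) (ac N φ x))
          (((hm m).restrict D).prod ((hm m).restrict D)) := (h.aesm _).comp_fst
      exact Complex.continuous_conj.comp_aestronglyMeasurable h2
  · refine Filter.Eventually.of_forall fun p φ => ?_
    rw [enorm_mul, enorm_mul]
    have h2 : ‖(starRingEnd ℂ) (Ψ (kk ρ (mt p.1) (cR φ) (cR η * mt p.2)))‖ₑ =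
        ‖Ψ (kk ρ (mt p.1) (cR φ) (cR η * mt p.2))‖ₑ := by
      rw [← ofReal_norm, ← ofReal_norm, RCLike.norm_conj]
    have h3 : ‖(starRingEnd ℂ) (F (mt p.1) (ac N φ x))‖ₑ ≤ GG F p.1 := by
      rw [← ofReal_norm, RCLike.norm_conj, ofReal_norm]
      exact Finset.single_le_sum (f := fun x => ‖F (mt p.1) x‖ₑ) (fun _ _ => zero_le)
        (Finset.mem_univ (ac N φ x))
    rw [h2]
    calc ‖ww F v p.2‖ₑ * (‖Ψ (kk ρ (mt p.1) (cR φ) (cR η * mt p.2))‖ₑ *
          ‖(starRingEnd ℂ) (F (mt p.1) (ac N φ x))‖ₑ)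
        ≤ GG F p.2 * (‖Ψ (kk ρ (mt p.1) (cR φ) (cR η * mt p.2))‖ₑ * GG F p.1) :=
          mul_le_mul' (ww_le v p.2) (mul_le_mul' le_rfl h3)
      _ = _ := by ring
  · exact hm1.congr (Filter.Eventually.of_forall fun p => (e1 p).symm)
  · rw [lintegral_congr e1]
    exact hf1

theorem Hy.int2 (h : Hy m N D F Ψ) (ρ : ℝ) (H : VN m N → ZM m)
    (xv : VN m N → VN m N)
    (hf : ∀ v, Pr v → ∫⁻ p : V m × V m, SS Ψ ρ (H v) p * (GG F p.1 * GG F p.2)
      ∂(((hm m).restrict D).prod ((hm m).restrict D)) ≠ ⊤) (v : VN m N) :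
    Integrable (fun p : V m × V m => ff H xv F Ψ ρ v p.1 p.2)
      (((hm m).restrict D).prod ((hm m).restrict D)) := by
  unfold ff
  by_cases hv : Pr v
  · simp only [if_pos hv]
    exact h.int1 ρ (H v) v (xv v) (hf v hv)
  · simp only [if_neg hv]
    exact integrable_zero _ _ _

/-- the sum of the kernel, decaying functions -/
theorem ss_dcy (hALZ : T_ALZ) (hTHG : T_THG) (h1 : 1 ≤ m) (h2 : 1 ≤ N)
    (hsh : ∀ z ∈ D, 1 ≤ aN (mt z) ∧ aN (mt z) < Real.exp 1) (hΨ : Dg m Ψ) (ρ : ℝ) (hρ : 0 < ρ)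
    (η : ZM m) (hη : η.det ≠ 0) :
    ∃ C : ENNReal, C ≠ ⊤ ∧ ∀ p : V m × V m, p.1 ∈ D → p.2 ∈ D →
      SS Ψ ρ η p ≤ C * Tht (mt p.1) * Tht (mt p.2) := by
  obtain ⟨⟨⟨-, hmul⟩, hdet⟩, -⟩ := hALZ m N h1 h2
  have h0 : 0 < aN (cR η) := by
    unfold aN
    refine Real.rpow_pos_of_pos (abs_pos.mpr ?_) _
    rw [(hdet η).1]
    exact_mod_cast hη
  obtain ⟨N0, hN0⟩ := hTHG m h1
  obtain ⟨C, -, hC⟩ := hN0 (ρ * aN (cR η)) (mul_pos hρ h0)
  obtain ⟨C1, hC1, hd⟩ := hΨ.dec N0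
  refine ⟨ENNReal.ofReal C1 * ENNReal.ofReal C,
    ENNReal.mul_ne_top ENNReal.ofReal_ne_top ENNReal.ofReal_ne_top, fun p hp1 hp2 => ?_⟩
  have h3 : SS Ψ ρ η p = ∑' φ : ZM m, (fun β : ZM m => ENNReal.ofReal
      ‖Ψ (kk (ρ * aN (cR η)) (mt p.1) (cR β) (mt p.2))‖) (φ * η) := by
    unfold SS
    refine tsum_congr fun φ => ?_
    rw [kk_shift, ← (hmul φ η).1]
    exact (ofReal_norm _).symm
  have h4 := hC (mt p.1) (mt p.2) (hsh _ hp1).1 (hsh _ hp1).2 (hsh _ hp2).1 (hsh _ hp2).2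
  calc SS Ψ ρ η p ≤ ∑' β : ZM m, ENNReal.ofReal
        ‖Ψ (kk (ρ * aN (cR η)) (mt p.1) (cR β) (mt p.2))‖ := by
        rw [h3]
        exact ENNReal.tsum_comp_le_tsum_of_injective (mul_inj η hη) _
    _ ≤ ∑' β : ZM m, ENNReal.ofReal C1 * ENNReal.ofReal
        ((1 + sz (kk (ρ * aN (cR η)) (mt p.1) (cR β) (mt p.2))) ^ (-(N0 : ℝ))) := by
        refine ENNReal.tsum_le_tsum fun β => ?_
        rw [← ENNReal.ofReal_mul hC1]
        exact ENNReal.ofReal_le_ofReal (hd _)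
    _ = ENNReal.ofReal C1 * ∑' β : ZM m, ENNReal.ofReal
        ((1 + sz (kk (ρ * aN (cR η)) (mt p.1) (cR β) (mt p.2))) ^ (-(N0 : ℝ))) :=
        ENNReal.tsum_mul_left
    _ ≤ ENNReal.ofReal C1 * (ENNReal.ofReal C * Tht (mt p.1) * Tht (mt p.2)) :=
        mul_le_mul' le_rfl h4
    _ = _ := by ring

/-- the sum of the kernel, functions vanishing on the singular matrices -/
theorem ss_sing (hALZ : T_ALZ) (hTNL : T_TNL) (h1 : 1 ≤ m) (h2 : 1 ≤ N)
    (hD : DomZ m D) (hdet : ∀ z ∈ D, (mt z).det ≠ 0) (hΨ : Dg m Ψ)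
    (hs : ∀ w : Mat m, w.det = 0 → Ψ w = 0) (ρ : ℝ) (hρ : 0 < ρ)
    (η : ZM m) (hη : η.det ≠ 0) :
    ∃ C : ENNReal, C ≠ ⊤ ∧ ∀ z ∈ D, ∫⁻ w in D, SS Ψ ρ η (w, z) ∂(hm m) ≤ C := by
  classical
  obtain ⟨⟨⟨-, -⟩, hdR⟩, -⟩ := hALZ m N h1 h2
  obtain ⟨K, N0, C, -, -, hC⟩ := hTNL m h1 0
  obtain ⟨C1, hC1, hd⟩ := hΨ.dec N0
  refine ⟨ENNReal.ofReal C1 * ENNReal.ofReal (C * ρ ^ K),
    ENNReal.mul_ne_top ENNReal.ofReal_ne_top ENNReal.ofReal_ne_top, fun z hz => ?_⟩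
  have hdz : (cR η * mt z).det ≠ 0 := by
    rw [Matrix.det_mul, (hdR η).1]
    exact mul_ne_zero (by exact_mod_cast hη) (hdet z hz)
  have h4 := hC D hD ρ hρ (cR η * mt z) hdz
  calc ∫⁻ w in D, SS Ψ ρ η (w, z) ∂(hm m)
      ≤ ∫⁻ w in D, ENNReal.ofReal C1 * ∑' α : ZM m, (if α.det = 0 then 0 else ENNReal.ofReal
        ((1 + sz (kk ρ (mt w) (cR α) (cR η * mt z))) ^ (-(N0 : ℝ)))) ∂(hm m) := by
        refine lintegral_mono fun w => ?_
        rw [← ENNReal.tsum_mul_left]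
        unfold SS
        refine ENNReal.tsum_le_tsum fun α => ?_
        by_cases h0 : α.det = 0
        · rw [if_pos h0, mul_zero]
          have h5 : (kk ρ (mt w) (cR α) (cR η * mt z)).det = 0 := by
            unfold kk
            rw [Matrix.det_smul, Matrix.det_mul, Matrix.det_mul, (hdR α).1, h0]
            simp
          change ‖Ψ (kk ρ (mt w) (cR α) (cR η * mt z))‖ₑ ≤ 0
          rw [hs _ h5, enorm_zero]
        · rw [if_neg h0, ← ENNReal.ofReal_mul hC1]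
          change ‖Ψ (kk ρ (mt w) (cR α) (cR η * mt z))‖ₑ ≤ _
          rw [← ofReal_norm]
          exact ENNReal.ofReal_le_ofReal (hd _)
    _ = ENNReal.ofReal C1 * ∫⁻ w in D, ∑' α : ZM m, (if α.det = 0 then 0 else ENNReal.ofReal
        ((1 + sz (kk ρ (mt w) (cR α) (cR η * mt z))) ^ (-(N0 : ℝ)))) ∂(hm m) :=
        lintegral_const_mul' _ _ ENNReal.ofReal_ne_top
    _ ≤ _ := mul_le_mul' le_rfl h4

end

open Classical in
/-- **the operators are adjoint, for a form and its Fourier transform** -/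
theorem pf_ADB (hTHG : T_THG) (hFTA : T_FTA) (hTNL : T_TNL) (hGSU : T_GSU)
    (hMSR : T_MSR) (hALZ : T_ALZ) (hVLM : T_VLM) : Pool.Agent.H27.L1.H34.GA.T_ADB := by
  intro m N _ T D hS H xv hFrk F lam hF Ψ hΨ hAdm ρ hρ
  have hDdet : ∀ z ∈ D, (mt z).det ≠ 0 := by
    intro z hz h0
    have h1 := (hS.dom.shell z hz).1
    have h2 := hS.one_le
    unfold aN at h1
    rw [h0, abs_zero, Real.zero_rpow (by positivity)] at h1
    norm_num at h1
  have h : Hy m N D F Ψ := {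
    meas := hS.dom.meas
    det := hDdet
    cont := hF.cont
    psi := hΨ.cont
    msr := hMSR }
  have hHdet : ∀ v, Pr v → (H v).det ≠ 0 := by
    intro v hv h0
    have h1 := hFrk.det v hv
    rw [h0, Int.natAbs_zero] at h1
    have h2 : 0 < N ^ (m - 1) := Nat.pow_pos (by have := hS.two_le; omega)
    omega
  have hf : ∀ v, Pr v → ∫⁻ p : V m × V m, SS Ψ ρ (H v) p * (GG F p.1 * GG F p.2)
      ∂(((hm m).restrict D).prod ((hm m).restrict D)) ≠ ⊤ := by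
    intro v hv
    rcases hAdm with hd | hs
    · obtain ⟨C, hC, hle⟩ := ss_dcy hALZ hTHG hS.one_le hS.two_le hS.dom.shell hΨ ρ hρ (H v)
        (hHdet v hv)
      exact h.fin_dcy hGSU (hFTA m N T D hS F lam hF hd) ρ (H v) C hC hle
    · obtain ⟨C, hC, hle⟩ := ss_sing hALZ hTNL hS.one_le hS.two_le hS.dom hDdet hΨ hs ρ hρ (H v)
        (hHdet v hv)
      obtain ⟨CV, KV, -, hV⟩ := hVLM m hS.one_le
      obtain ⟨B, hB⟩ := hF.bdd
      refine h.fin_sing (ne_top_of_le_ne_top ENNReal.ofReal_ne_top (hV D hS.dom).1)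
        (∑ _x : VN m N, ENNReal.ofReal B) ?_ ?_ ρ (H v) C hC hle
      · exact ENNReal.sum_ne_top.mpr fun _ _ => ENNReal.ofReal_ne_top
      · intro z hz
        unfold GG
        refine Finset.sum_le_sum fun x _ => ?_
        rw [← ofReal_norm]
        exact ENNReal.ofReal_le_ofReal (hB _ x (hDdet z hz))
  obtain ⟨-, -, -, -, hsig, -, -, -⟩ := h.msr.1 m
  have := hsig
  change ∫ g in D, ∫ k in D, ∑ v : VN m N, ff H xv F Ψ ρ v g k ∂(hm m) ∂(hm m) = _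
  have hint : Integrable (fun p : V m × V m => ∑ v : VN m N, ff H xv F Ψ ρ v p.1 p.2)
      (((hm m).restrict D).prod ((hm m).restrict D)) :=
    integrable_finsetSum _ fun v _ => h.int2 ρ H xv hf v
  rw [integral_integral_swap (f := fun g k : V m => ∑ v : VN m N, ff H xv F Ψ ρ v g k) hint]
  refine integral_congr_ae ?_
  have hae : ∀ᵐ k ∂((hm m).restrict D), ∀ v : VN m N,
      Integrable (fun g => ff H xv F Ψ ρ v g k) ((hm m).restrict D) := by
    rw [ae_all_iff]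
    intro v
    exact (h.int2 ρ H xv hf v).prod_left_ae
  filter_upwards [hae] with k hk
  rw [integral_finsetSum _ fun v _ => hk v]
  refine Finset.sum_congr rfl fun v _ => ?_
  unfold ff
  by_cases hv : Pr v
  · simp only [if_pos hv]
    rw [integral_const_mul]
    change ww F v k * _ = ww F v k * _
    congr 1
    unfold opAu
    rw [← integral_conj]
    refine integral_congr_ae (Filter.Eventually.of_forall fun z => ?_)
    change _ = (starRingEnd ℂ) (∑' α : ZM m, Ψ (kk ρ (mt z) (cR α) (cR (H v) * mt k)) *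
      F (mt z) (ac N α (xv v)))
    rw [Complex.conj_tsum]
    refine tsum_congr fun α => ?_
    rw [map_mul]
  · simp only [if_neg hv]
    exact integral_zero _ _

end Pool.Agent.H27.L1.H80.GA
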